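import Pool.Agent.Helper6.NX.GoalsB2

/-!
# Packet NX-EDG (project of helper6, MP_75608d_al): prescribed edges for one conjugate
-/

set_option linter.unusedVariables false

namespace Pool.Agent.Helper94.NX

open Equiv Filter Topology Pool.Agent.Helper15.An
open Pool.Agent.Helper6.NX

/-- the injective labellings compatible with the edges -/
noncomputable def BB {n : ℕ} (π : Perm (Fin n)) {T : Type} [Fintype T] (E : Finset (T × T)) :
    Finset (T ↪ Fin n) := by
  classical exact Finset.univ.filter fun b => ∀ e ∈ E, b e.2 = π (b e.1)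

lemma mem_BB {n : ℕ} (π : Perm (Fin n)) {T : Type} [Fintype T] (E : Finset (T × T))
    (b : T ↪ Fin n) : b ∈ BB π E ↔ ∀ e ∈ E, b e.2 = π (b e.1) := by
  classical
  unfold BB
  rw [Finset.mem_filter]
  exact ⟨fun h => h.2, fun h => ⟨Finset.mem_univ _, h⟩⟩

/-- counting the labellings -/
lemma count {n : ℕ} (π : Perm (Fin n)) {T : Type} [Fintype T] [DecidableEq T] (f : T → ℕ)
    (E A F0 : Finset (T × T)) (hA : A ⊆ E) (hF : F0 ⊆ E \ A) (hinc : ∀ e ∈ F0, f e.1 < f e.2)
    (hAE : ∀ e ∈ A, ∀ e' ∈ E, e'.1 ≠ e.2) (ρ : ℝ) (hρ : 0 ≤ ρ) (hfix : (fixc π : ℝ) ≤ ρ * n) :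
    ((BB π E).card : ℝ) * (n : ℝ) ^ (A.card + F0.card) ≤
      (n : ℝ) ^ Fintype.card T * ρ ^ (E.filter fun e => e.1 = e.2).card := by
  classical
  have hn0 : (0 : ℝ) ≤ (n : ℝ) := Nat.cast_nonneg n
  rcases Finset.eq_empty_or_nonempty (BB π E) with hB | ⟨b0, hb0⟩
  · rw [hB, Finset.card_empty, Nat.cast_zero, zero_mul]
    positivity
  rw [mem_BB] at hb0
  -- distinct edges have distinct targets
  have htar : ∀ e ∈ E, ∀ e' ∈ E, e.2 = e'.2 → e = e' := by
    intro e he e' he' h
    have h1 := hb0 e he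
    have h2 := hb0 e' he'
    rw [h, h2] at h1
    have h3 : e.1 = e'.1 := (b0.injective (π.injective h1)).symm
    exact Prod.ext h3 h
  set F := A ∪ F0 with hFdef
  have hFE : F ⊆ E := by
    intro e he
    rw [hFdef, Finset.mem_union] at he
    rcases he with he | he
    · exact hA he
    · exact (Finset.mem_sdiff.mp (hF he)).1
  have hdisj : Disjoint A F0 := by
    rw [Finset.disjoint_left]
    intro e he he'
    exact (Finset.mem_sdiff.mp (hF he')).2 he
  have hFcard : F.card = A.card + F0.card := Finset.card_union_of_disjoint hdisj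
  set D := F.image Prod.snd with hD
  have hDcard : D.card = A.card + F0.card := by
    rw [hD, Finset.card_image_of_injOn, hFcard]
    intro e he e' he' h
    exact htar e (hFE he) e' (hFE he') h
  set L := (E.filter fun e => e.1 = e.2).image Prod.fst with hL
  have hLcard : L.card = (E.filter fun e => e.1 = e.2).card := by
    rw [hL, Finset.card_image_of_injOn]
    intro e he e' he' h
    rw [Finset.mem_coe, Finset.mem_filter] at he he'
    have h1 : e.1 = e'.1 := h
    exact Prod.ext h1 (by rw [← he.2, ← he'.2]; exact h1)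
  have hLD : Disjoint L D := by
    rw [Finset.disjoint_left]
    intro u hu hu'
    rw [hL, Finset.mem_image] at hu
    rw [hD, Finset.mem_image] at hu'
    obtain ⟨e, he, rfl⟩ := hu
    obtain ⟨e', he', h'⟩ := hu'
    rw [Finset.mem_filter] at he
    have h1 : e' = e := htar e' (hFE he') e he.1 (by rw [h']; exact he.2)
    rw [h1, hFdef, Finset.mem_union] at he'
    rcases he' with he' | he'
    · exact hAE e he' e he.1 he.2
    · have := hinc e he'
      rw [he.2] at this
      exact lt_irrefl _ this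
  -- the restriction map
  set S : Finset T := Dᶜ with hS
  have hScard : S.card + (A.card + F0.card) = Fintype.card T := by
    rw [hS, Finset.card_compl, hDcard]
    have : D.card ≤ Fintype.card T := Finset.card_le_univ D
    rw [hDcard] at this
    omega
  have hinj : Set.InjOn (fun (b : T ↪ Fin n) (s : {s // s ∈ S}) => b s.1)
      ((BB π E : Finset (T ↪ Fin n)) : Set (T ↪ Fin n)) := by
    intro b hb b' hb' h
    rw [Finset.mem_coe, mem_BB] at hb hb'
    have hSeq : ∀ t ∈ S, b t = b' t := fun t ht => congrFun h ⟨t, ht⟩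
    have h1 : ∀ k : ℕ, ∀ t : T, f t = k → (∀ e ∈ A, e.2 ≠ t) → b t = b' t := by
      intro k
      induction k using Nat.strong_induction_on with
      | _ k ih =>
        intro t htk htA
        by_cases ht : t ∈ S
        · exact hSeq t ht
        · rw [hS, Finset.mem_compl, not_not, hD, Finset.mem_image] at ht
          obtain ⟨e, he, rfl⟩ := ht
          rw [hFdef, Finset.mem_union] at he
          rcases he with he | he
          · exact absurd rfl (htA e he)
          · have heE : e ∈ E := (Finset.mem_sdiff.mp (hF he)).1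
            rw [hb e heE, hb' e heE]
            congr 1
            apply ih (f e.1) (by rw [← htk]; exact hinc e he) e.1 rfl
            intro e' he' h'
            exact hAE e' he' e heE h'.symm
    have h2 : ∀ t : T, b t = b' t := by
      intro t
      by_cases htA : ∀ e ∈ A, e.2 ≠ t
      · exact h1 (f t) t rfl htA
      · push Not at htA
        obtain ⟨e, he, rfl⟩ := htA
        rw [hb e (hA he), hb' e (hA he)]
        congr 1
        apply h1 (f e.1) e.1 rfl
        intro e' he' h'
        exact hAE e' he' e (hA he) h'.symm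
    exact DFunLike.ext b b' h2
  have hsub : (BB π E).image (fun (b : T ↪ Fin n) (s : {s // s ∈ S}) => b s.1) ⊆
      Fintype.piFinset (fun s : {s // s ∈ S} => if s.1 ∈ L then
        (Finset.univ.filter fun x : Fin n => π x = x) else Finset.univ) := by
    intro g hg
    rw [Finset.mem_image] at hg
    obtain ⟨b, hb, rfl⟩ := hg
    rw [mem_BB] at hb
    rw [Fintype.mem_piFinset]
    intro s
    by_cases hs : s.1 ∈ L
    · rw [if_pos hs, Finset.mem_filter]
      rw [hL, Finset.mem_image] at hs
      obtain ⟨e, he, h⟩ := hs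
      rw [Finset.mem_filter] at he
      refine ⟨Finset.mem_univ _, ?_⟩
      have h3 := hb e he.1
      rw [← he.2, h] at h3
      exact h3.symm
    · rw [if_neg hs]
      exact Finset.mem_univ _
  have hcard1 : (BB π E).card ≤ ∏ s : {s // s ∈ S}, (if s.1 ∈ L then
        (Finset.univ.filter fun x : Fin n => π x = x) else Finset.univ).card := by
    rw [← Fintype.card_piFinset, ← Finset.card_image_of_injOn hinj]
    exact Finset.card_le_card hsub
  have hprod : (∏ s : {s // s ∈ S}, (((if s.1 ∈ L then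
        (Finset.univ.filter fun x : Fin n => π x = x) else Finset.univ).card : ℕ) : ℝ)) ≤
      (n : ℝ) ^ S.card * ρ ^ L.card := by
    have e1 : (∏ s : {s // s ∈ S}, (((if s.1 ∈ L then
        (Finset.univ.filter fun x : Fin n => π x = x) else Finset.univ).card : ℕ) : ℝ)) =
        ∏ s ∈ S, (if s ∈ L then (fixc π : ℝ) else (n : ℝ)) := by
      rw [← Finset.prod_coe_sort S (fun s => (if s ∈ L then (fixc π : ℝ) else (n : ℝ)))]
      apply Finset.prod_congr rfl
      intro s _
      by_cases hs : s.1 ∈ L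
      · rw [if_pos hs, if_pos hs]
        rfl
      · rw [if_neg hs, if_neg hs, Finset.card_univ, Fintype.card_fin]
    rw [e1]
    have h4 : ∀ s ∈ S, (if s ∈ L then (fixc π : ℝ) else (n : ℝ)) ≤
        (n : ℝ) * (if s ∈ L then ρ else 1) := by
      intro s _
      by_cases hs : s ∈ L
      · rw [if_pos hs, if_pos hs, mul_comm]
        exact hfix
      · rw [if_neg hs, if_neg hs, mul_one]
    refine le_trans (Finset.prod_le_prod (fun s _ => ?_) h4) ?_
    · by_cases hs : s ∈ L
      · rw [if_pos hs]; positivity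
      · rw [if_neg hs]; exact hn0
    · rw [Finset.prod_mul_distrib, Finset.prod_const]
      apply le_of_eq
      congr 1
      rw [Finset.prod_ite, Finset.prod_const, Finset.prod_const_one, mul_one]
      congr 1
      congr 1
      ext s
      rw [Finset.mem_filter, hS, Finset.mem_compl]
      constructor
      · intro h; exact h.2
      · intro h; exact ⟨Finset.disjoint_left.mp hLD h, h⟩
  have h5 : ((BB π E).card : ℝ) ≤ (n : ℝ) ^ S.card * ρ ^ L.card := by
    refine le_trans ?_ hprod
    exact_mod_cast hcard1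
  calc ((BB π E).card : ℝ) * (n : ℝ) ^ (A.card + F0.card)
      ≤ ((n : ℝ) ^ S.card * ρ ^ L.card) * (n : ℝ) ^ (A.card + F0.card) :=
        mul_le_mul_of_nonneg_right h5 (by positivity)
    _ = (n : ℝ) ^ (S.card + (A.card + F0.card)) * ρ ^ L.card := by
        rw [pow_add]; ring
    _ = _ := by rw [hScard, hLcard]

/-- falling factorials -/
lemma desc (n r J : ℕ) (hr : r ≤ J) (hn : 1 ≤ n) (hJ : 4 * J ^ 2 ≤ n) :
    (n : ℝ) ^ r ≤ 2 * (n.descFactorial r : ℝ) := by
  have hrn : r ^ 2 ≤ J ^ 2 := Nat.pow_le_pow_left hr 2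
  have hrr : r ≤ r ^ 2 := by
    rcases Nat.eq_zero_or_pos r with h | h
    · rw [h]; simp
    · exact Nat.le_self_pow (by norm_num) r
  have h1 : ((n + 1 - r : ℕ) : ℝ) ^ r ≤ (n.descFactorial r : ℝ) := by
    exact_mod_cast Nat.pow_sub_le_descFactorial n r
  have hn' : (0 : ℝ) < n := by exact_mod_cast hn
  have hrn' : r ≤ n := by omega
  have h2 : (n : ℝ) * (1 + (-(r : ℝ) / n)) ≤ ((n + 1 - r : ℕ) : ℝ) := by
    rw [Nat.cast_sub (by omega)]
    push_cast
    rw [mul_add, mul_div_cancel₀ _ hn'.ne']
    linarith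
  have h3 : (-2 : ℝ) ≤ -(r : ℝ) / n := by
    rw [le_div_iff₀ hn']
    have : (r : ℝ) ≤ n := by exact_mod_cast hrn'
    linarith
  have h4 := one_add_mul_le_pow h3 r
  have h5 : (1 : ℝ) / 2 ≤ 1 + (r : ℝ) * (-(r : ℝ) / n) := by
    have h6 : (r : ℝ) ^ 2 / n ≤ 1 / 4 := by
      rw [div_le_iff₀ hn']
      have : (4 * r ^ 2 : ℝ) ≤ n := by
        exact_mod_cast le_trans (Nat.mul_le_mul_left 4 hrn) hJ
      linarith
    have e : (r : ℝ) * (-(r : ℝ) / n) = -((r : ℝ) ^ 2 / n) := by ring
    rw [e]
    linarith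
  have h7 : 0 ≤ 1 + (-(r : ℝ) / n) := by
    have : (r : ℝ) / n ≤ 1 := by
      rw [div_le_one hn']
      exact_mod_cast hrn'
    rw [neg_div]
    linarith
  have h8 : ((n : ℝ) * (1 + (-(r : ℝ) / n))) ^ r ≤ ((n + 1 - r : ℕ) : ℝ) ^ r :=
    pow_le_pow_left₀ (by positivity) h2 r
  have h9 : (n : ℝ) ^ r * (1 / 2) ≤ ((n : ℝ) * (1 + (-(r : ℝ) / n))) ^ r := by
    rw [mul_pow]
    exact mul_le_mul_of_nonneg_left (le_trans h5 h4) (by positivity)
  linarith

theorem thmEDG : S_EDG := by
  intro n J π ω ρ T _ _ q E A hω hρ hJ hn hT hfix hpr hAE' hout hAE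
  classical
  have hn' : (0 : ℝ) < n := by exact_mod_cast hn
  set nl := ((E \ A).filter fun e => e.1 ≠ e.2).card with hnl
  set lo := (E.filter fun e => e.1 = e.2).card with hlo
  set r := Fintype.card T with hr
  set e0 : Fin r ≃ T := (Fintype.equivFin T).symm with he0
  -- the set F0
  obtain ⟨f, F0, hF0, hinc, hF0c⟩ : ∃ (f : T → ℕ) (F0 : Finset (T × T)), F0 ⊆ E \ A ∧
      (∀ e ∈ F0, f e.1 < f e.2) ∧ nl ≤ 2 * F0.card := by
    set X := (E \ A).filter fun e => e.1 ≠ e.2 with hX
    set f1 : T → ℕ := fun t => (e0.symm t : ℕ) with hf1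
    set f2 : T → ℕ := fun t => r - (e0.symm t : ℕ) with hf2
    have hsplit : (X.filter fun e => f1 e.1 < f1 e.2).card +
        (X.filter fun e => ¬ f1 e.1 < f1 e.2).card = nl := by
      rw [hnl]
      exact Finset.card_filter_add_card_filter_not _
    rcases le_total (X.filter fun e => f1 e.1 < f1 e.2).card
        (X.filter fun e => ¬ f1 e.1 < f1 e.2).card with h | h
    · refine ⟨f2, X.filter fun e => ¬ f1 e.1 < f1 e.2, ?_, ?_, by omega⟩
      · exact (Finset.filter_subset _ _).trans (Finset.filter_subset _ _)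
      · intro e he
        rw [Finset.mem_filter, hX, Finset.mem_filter] at he
        have h1 : (e0.symm e.1 : ℕ) ≠ (e0.symm e.2 : ℕ) := by
          intro h2
          exact he.1.2 (e0.symm.injective (Fin.ext h2))
        have h2 : ¬ ((e0.symm e.1 : ℕ) < (e0.symm e.2 : ℕ)) := he.2
        have h3 : (e0.symm e.1 : ℕ) < r := (e0.symm e.1).2
        show r - (e0.symm e.1 : ℕ) < r - (e0.symm e.2 : ℕ)
        omega
    · refine ⟨f1, X.filter fun e => f1 e.1 < f1 e.2, ?_, ?_, by omega⟩
      · exact (Finset.filter_subset _ _).trans (Finset.filter_subset _ _)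
      · intro e he
        exact (Finset.mem_filter.mp he).2
  have hcount := count π f E A F0 hAE' hF0 hinc hAE ρ hρ hfix
  -- the probability
  set a : Fin r ↪ Fin n := e0.toEmbedding.trans q with ha
  have hsum : ∑ w : Perm (Fin n), (if ∀ e ∈ E, w (q e.2) = π (w (q e.1)) then ω w else 0) ≤
      ∑ b ∈ BB π E, prT ω a (e0.toEmbedding.trans b) := by
    unfold prT
    have h1 : ∀ w : Perm (Fin n),
        (if ∀ e ∈ E, w (q e.2) = π (w (q e.1)) then ω w else 0) ≤
        ∑ b ∈ BB π E, (if ∀ i, w (a i) = (e0.toEmbedding.trans b) i then ω w else 0) := by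
      intro w
      split_ifs with hw
      · have h2 : q.trans w.toEmbedding ∈ BB π E := by
          rw [mem_BB]
          intro e he
          exact hw e he
        refine le_trans (le_of_eq ?_) (Finset.single_le_sum (f := fun b =>
          (if ∀ i, w (a i) = (e0.toEmbedding.trans b) i then ω w else 0))
          (fun b _ => ?_) h2)
        · show ω w = if ∀ i, w (a i) = (e0.toEmbedding.trans (q.trans w.toEmbedding)) i
            then ω w else 0
          rw [if_pos]
          intro i
          rfl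
        · show 0 ≤ if ∀ i, w (a i) = (e0.toEmbedding.trans b) i then ω w else 0
          split_ifs
          · exact hω.1 w
          · exact le_refl 0
      · apply Finset.sum_nonneg
        intro b _
        split_ifs
        · exact hω.1 w
        · exact le_refl 0
    refine le_trans (Finset.sum_le_sum fun w _ => h1 w) ?_
    rw [Finset.sum_comm]
    apply Finset.sum_le_sum
    intro b _
    rw [Finset.sum_filter]
  have hdesc := desc n r J hT hn hJ
  have hd0 : (0 : ℝ) < (n.descFactorial r : ℝ) := by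
    have : (0 : ℝ) < (n : ℝ) ^ r := by positivity
    linarith
  have hterm : ∀ b ∈ BB π E, prT ω a (e0.toEmbedding.trans b) ≤ 4 / (n : ℝ) ^ r := by
    intro b _
    refine le_trans (hpr r hT a _) ?_
    rw [div_le_div_iff₀ hd0 (by positivity)]
    linarith
  have h10 : ∑ w : Perm (Fin n), (if ∀ e ∈ E, w (q e.2) = π (w (q e.1)) then ω w else 0) ≤
      ((BB π E).card : ℝ) * (4 / (n : ℝ) ^ r) := by
    refine le_trans hsum ?_
    refine le_trans (Finset.sum_le_card_nsmul _ _ _ hterm) ?_
    rw [nsmul_eq_mul]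
  have h11 : ((BB π E).card : ℝ) ≤ (n : ℝ) ^ r * ρ ^ lo / (n : ℝ) ^ (A.card + F0.card) := by
    rw [le_div_iff₀ (by positivity)]
    exact hcount
  have h12 : ((BB π E).card : ℝ) * (4 / (n : ℝ) ^ r) ≤
      4 * (1 / (n : ℝ)) ^ A.card * ρ ^ lo * (1 / (n : ℝ)) ^ F0.card := by
    refine le_trans (mul_le_mul_of_nonneg_right h11 (by positivity)) (le_of_eq ?_)
    rw [pow_add, one_div_pow, one_div_pow]
    field_simp
  have hs1 : 1 / √(n : ℝ) ≤ 1 := by
    rw [div_le_one (Real.sqrt_pos.mpr hn')]
    rw [Real.one_le_sqrt]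
    exact_mod_cast hn
  have h13 : (1 / (n : ℝ)) ^ F0.card ≤ (1 / √(n : ℝ)) ^ nl := by
    have e1 : (1 / (n : ℝ)) = (1 / √(n : ℝ)) ^ 2 := by
      rw [div_pow, one_pow, Real.sq_sqrt hn'.le]
    rw [e1, ← pow_mul]
    exact pow_le_pow_of_le_one (by positivity) hs1 hF0c
  calc ∑ w : Perm (Fin n), (if ∀ e ∈ E, w (q e.2) = π (w (q e.1)) then ω w else 0)
      ≤ ((BB π E).card : ℝ) * (4 / (n : ℝ) ^ r) := h10
    _ ≤ 4 * (1 / (n : ℝ)) ^ A.card * ρ ^ lo * (1 / (n : ℝ)) ^ F0.card := h12
    _ ≤ 4 * (1 / (n : ℝ)) ^ A.card * ρ ^ lo * (1 / √(n : ℝ)) ^ nl :=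
        mul_le_mul_of_nonneg_left h13 (by positivity)

end Pool.Agent.Helper94.NX
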